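import Mathlib

/-!
The `(q : 1)` Waiter-Client game on the edge set of `K_n`, vertices `Fin n`.
-/

namespace Pool.Agent.Work.MP_933b0f_co

variable {n : ℕ}

/-- The edges of `K_n` that have not been offered, when `off` is the set of edges offered so far. -/
def free (off : Finset (Sym2 (Fin n))) : Finset (Sym2 (Fin n)) :=
  Finset.univ.filter (fun e => ¬ e.IsDiag ∧ e ∉ off)

/-- Client's graph: the graph on all `n` vertices whose edges are those in `cl`. -/
def clientGraph (cl : Finset (Sym2 (Fin n))) : SimpleGraph (Fin n) :=
  SimpleGraph.fromEdgeSet (cl : Set (Sym2 (Fin n)))

/-- `G` has a connected component with at least `k` vertices. -/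
def HasComp (G : SimpleGraph (Fin n)) (k : ℕ) : Prop :=
  ∃ c : G.ConnectedComponent, k ≤ c.supp.ncard

/-- `WaiterForces q k off cl`: in the `(q : 1)` game, from the position in which the edges in `off`
have been offered and Client has kept the edges in `cl`, Waiter has a strategy that guarantees
that, at the end of the game, Client's graph has a component with at least `k` vertices. The game is
over when at most `q` edges are left unoffered (they all go to Waiter); otherwise Waiter offers
some set `S` of `q + 1` unoffered edges, and Client keeps one edge `e` of `S`. -/
inductive WaiterForces (q k : ℕ) : Finset (Sym2 (Fin n)) → Finset (Sym2 (Fin n)) → Prop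
  | done (off cl : Finset (Sym2 (Fin n))) (h : (free off).card ≤ q)
      (hc : HasComp (clientGraph cl) k) : WaiterForces q k off cl
  | move (off cl S : Finset (Sym2 (Fin n))) (hS : S ⊆ free off) (hcard : S.card = q + 1)
      (h : ∀ e ∈ S, WaiterForces q k (off ∪ S) (insert e cl)) : WaiterForces q k off cl

/-- `comp n q`: the order of a largest component of Client's graph at the end of the game under
optimal play, Waiter maximising and Client minimising it. -/
noncomputable def comp (n q : ℕ) : ℕ :=
  sSup {k | WaiterForces (n := n) q k ∅ ∅}

end Pool.Agent.Work.MP_933b0f_co
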