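import Mathlib

namespace Pool.Agent.Work.MP_933b0f_co

open Finset

/-- minimal subset with large sum -/
lemma exists_minimal {V : Type*} [DecidableEq V] (A : Finset V) (a : V → ℕ) (Q : ℕ)
    (h : Q ≤ ∑ x ∈ A, a x) : ∃ W ⊆ A, Q ≤ ∑ x ∈ W, a x ∧ ∀ x ∈ W, ∑ y ∈ W.erase x, a y < Q := by
  classical
  have hne : (A.powerset.filter (fun W => Q ≤ ∑ x ∈ W, a x)).Nonempty :=
    ⟨A, by simp [h]⟩
  obtain ⟨W, hW, hmin⟩ := Finset.exists_min_image _ Finset.card hne
  rw [mem_filter, mem_powerset] at hW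
  refine ⟨W, hW.1, hW.2, ?_⟩
  intro x hx
  by_contra hcon
  push Not at hcon
  have h1 : W.erase x ∈ A.powerset.filter (fun W => Q ≤ ∑ x ∈ W, a x) := by
    rw [mem_filter, mem_powerset]
    exact ⟨(Finset.erase_subset _ _).trans hW.1, hcon⟩
  have h2 := hmin _ h1
  rw [Finset.card_erase_of_mem hx] at h2
  have h3 : 0 < W.card := Finset.card_pos.2 ⟨x, hx⟩
  omega

/-- construct the offered amounts from a set `W` and a set `Y` of vertices that keep one pair -/
lemma build {V : Type*} [DecidableEq V] (O W Y : Finset V) (a : V → ℕ) (Q s : ℕ) (hWO : W ⊆ O)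
    (hYW : Y ⊆ W) (hY : ∀ y ∈ Y, 1 ≤ a y) (hsum : ∑ x ∈ W, a x = Q + Y.card) (hs : s ≤ W.card) :
    ∃ b : V → ℕ, (∀ w, b w ≤ a w) ∧ ∑ w ∈ O, b w = Q ∧ (∀ w ∈ O, 0 < b w → a w ≤ b w + 1) ∧
      s ≤ (O.filter (fun w => a w ≤ b w + 1)).card := by
  refine ⟨fun w => (if w ∈ W then a w else 0) - (if w ∈ Y then 1 else 0), ?_, ?_, ?_, ?_⟩
  · intro w
    by_cases h1 : w ∈ W <;> simp [h1]
  · have h1 : ∑ w ∈ O, ((if w ∈ W then a w else 0) - (if w ∈ Y then 1 else 0))
        + ∑ w ∈ O, (if w ∈ Y then 1 else 0) = ∑ w ∈ O, (if w ∈ W then a w else 0) := by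
      rw [← Finset.sum_add_distrib]
      apply Finset.sum_congr rfl
      intro w _
      by_cases h2 : w ∈ Y
      · have h3 := hY w h2
        have h4 := hYW h2
        simp only [h2, h4, if_true]
        omega
      · simp [h2]
    rw [← Finset.sum_filter, ← Finset.sum_filter] at h1
    have h2 : O.filter (fun w => w ∈ W) = W := by
      ext w; simp only [mem_filter]; exact ⟨fun h => h.2, fun h => ⟨hWO h, h⟩⟩
    have h3 : O.filter (fun w => w ∈ Y) = Y := by
      ext w; simp only [mem_filter]; exact ⟨fun h => h.2, fun h => ⟨hWO (hYW h), h⟩⟩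
    rw [h2, h3] at h1
    simp only [Finset.sum_const, smul_eq_mul, mul_one] at h1
    change ∑ w ∈ O, ((if w ∈ W then a w else 0) - (if w ∈ Y then 1 else 0)) = Q
    omega
  · intro w _ hb
    by_cases h1 : w ∈ W <;> by_cases h2 : w ∈ Y <;> simp [h1, h2] at hb ⊢ <;> omega
  · refine hs.trans (Finset.card_le_card ?_)
    intro w hw
    rw [mem_filter]
    refine ⟨hWO hw, ?_⟩
    by_cases h2 : w ∈ Y <;> simp [hw, h2] <;> omega

/-- the choice of the numbers of offered pairs -/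
lemma choice {V : Type*} [DecidableEq V] (O : Finset V) (a : V → ℕ) (Q K : ℕ) (hQ : 0 < Q)
    (hK : ∀ w ∈ O, a w ≤ K) (hsum : Q ≤ ∑ w ∈ O, a w)
    (hSm : K ≤ (O.filter (fun w => 1 ≤ a w ∧ a w ≤ 2)).card) :
    ∃ b : V → ℕ, (∀ w, b w ≤ a w) ∧ ∑ w ∈ O, b w = Q ∧ (∀ w ∈ O, 0 < b w → a w ≤ b w + 1) ∧
      min (Q / 2) ((O.filter (fun w => 1 ≤ a w ∧ a w ≤ 2)).card + 1)
        ≤ (O.filter (fun w => a w ≤ b w + 1)).card := by
  set Sm := O.filter (fun w => 1 ≤ a w ∧ a w ≤ 2) with hSmdef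
  have hSmO : Sm ⊆ O := Finset.filter_subset _ _
  have hSm1 : ∀ w ∈ Sm, 1 ≤ a w ∧ a w ≤ 2 := by
    intro w hw
    rw [hSmdef, mem_filter] at hw
    exact hw.2
  by_cases hA : Q ≤ ∑ w ∈ Sm, a w
  · obtain ⟨W, hW, hWQ, hWmin⟩ := exists_minimal Sm a Q hA
    have hWne : W.Nonempty := by
      rw [Finset.nonempty_iff_ne_empty]
      rintro rfl
      simp at hWQ
      omega
    obtain ⟨x, hx⟩ := hWne
    have h1 := hWmin x hx
    have h2 := Finset.add_sum_erase W a hx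
    have h3 := hSm1 x (hW hx)
    have hcardW : Q / 2 ≤ W.card := by
      have : ∑ w ∈ W, a w ≤ ∑ w ∈ W, 2 := Finset.sum_le_sum (fun w hw => (hSm1 w (hW hw)).2)
      rw [Finset.sum_const, smul_eq_mul] at this
      omega
    have hlam : ∑ w ∈ W, a w = Q ∨ ∑ w ∈ W, a w = Q + 1 := by omega
    rcases hlam with h | h
    · obtain ⟨b, hb⟩ := build O W ∅ a Q (Q / 2) (hW.trans hSmO) (Finset.empty_subset _) (by simp)
        (by simpa using h) hcardW
      exact ⟨b, hb.1, hb.2.1, hb.2.2.1, (min_le_left _ _).trans hb.2.2.2⟩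
    · obtain ⟨b, hb⟩ := build O W {x} a Q (Q / 2) (hW.trans hSmO) (by simpa using hx)
        (by simpa using h3.1) (by simpa using h) hcardW
      exact ⟨b, hb.1, hb.2.1, hb.2.2.1, (min_le_left _ _).trans hb.2.2.2⟩
  · push Not at hA
    have hsplit : ∑ w ∈ O, a w = ∑ w ∈ Sm, a w + ∑ w ∈ O \ Sm, a w := by
      rw [add_comm]
      exact (Finset.sum_sdiff hSmO).symm
    have hrest : Q - ∑ w ∈ Sm, a w ≤ ∑ w ∈ O \ Sm, a w := by omega
    obtain ⟨X, hX, hXQ, hXmin⟩ := exists_minimal (O \ Sm) a (Q - ∑ w ∈ Sm, a w) hrest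
    have hXne : X.Nonempty := by
      rw [Finset.nonempty_iff_ne_empty]
      rintro rfl
      simp at hXQ
      omega
    obtain ⟨x, hx⟩ := hXne
    have h1 := hXmin x hx
    have h2 := Finset.add_sum_erase X a hx
    have h3 := hK x ((Finset.mem_sdiff.1 (hX hx)).1)
    have hlam : ∑ w ∈ Sm, a w + ∑ w ∈ X, a w - Q ≤ Sm.card := by omega
    obtain ⟨Y, hY, hYc⟩ := Finset.exists_subset_card_eq hlam
    have hdisj : Disjoint Sm X := by
      rw [Finset.disjoint_left]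
      intro w hw hw'
      exact (Finset.mem_sdiff.1 (hX hw')).2 hw
    have hcardU : (Sm ∪ X).card = Sm.card + X.card := Finset.card_union_of_disjoint hdisj
    have hXc : 0 < X.card := Finset.card_pos.2 ⟨x, hx⟩
    obtain ⟨b, hb⟩ := build O (Sm ∪ X) Y a Q (Sm.card + 1)
      (Finset.union_subset hSmO (hX.trans Finset.sdiff_subset))
      (hY.trans Finset.subset_union_left) (fun y hy => (hSm1 y (hY hy)).1)
      (by rw [Finset.sum_union hdisj, hYc]; omega) (by omega)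
    exact ⟨b, hb.1, hb.2.1, hb.2.2.1, (min_le_right _ _).trans hb.2.2.2⟩

end Pool.Agent.Work.MP_933b0f_co
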