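import Mathlib
import Pool.Agent.Work.MP_933b0f_co.Defs
import Pool.Agent.Work.MP_933b0f_co.Choice

namespace Pool.Agent.Work.MP_933b0f_co

open Finset

variable {n : ℕ}

lemma mem_free (off : Finset (Sym2 (Fin n))) (e : Sym2 (Fin n)) :
    e ∈ free off ↔ ¬ e.IsDiag ∧ e ∉ off := by
  simp [free]

lemma clientGraph_mono {cl cl' : Finset (Sym2 (Fin n))} (h : cl ⊆ cl') :
    clientGraph cl ≤ clientGraph cl' := by
  unfold clientGraph
  exact SimpleGraph.fromEdgeSet_mono (by exact_mod_cast h)

lemma hasComp_of_set {G : SimpleGraph (Fin n)} {C : Finset (Fin n)} {k : ℕ} (hk : k ≤ C.card)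
    (x : Fin n) (hconn : ∀ y ∈ C, G.Reachable x y) : HasComp G k := by
  refine ⟨G.connectedComponentMk x, hk.trans ?_⟩
  rw [← Set.ncard_coe_finset]
  apply Set.ncard_le_ncard _ (Set.toFinite _)
  intro y hy
  rw [SimpleGraph.ConnectedComponent.mem_supp_iff]
  exact SimpleGraph.ConnectedComponent.sound (hconn y hy).symm

lemma hasComp_mono {cl cl' : Finset (Sym2 (Fin n))} (h : cl ⊆ cl') {k : ℕ}
    (hc : HasComp (clientGraph cl) k) : HasComp (clientGraph cl') k := by
  classical
  obtain ⟨c, hc⟩ := hc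
  induction c using SimpleGraph.ConnectedComponent.ind with
  | h v =>
    apply hasComp_of_set (C := (Set.toFinite ((clientGraph cl).connectedComponentMk v).supp).toFinset)
      (x := v)
    · rwa [← Set.ncard_eq_toFinset_card]
    · intro y hy
      rw [Set.Finite.mem_toFinset, SimpleGraph.ConnectedComponent.mem_supp_iff] at hy
      exact (SimpleGraph.ConnectedComponent.exact hy).symm.mono (clientGraph_mono h)

/-- once Client's graph has a large component, Waiter has reached his goal -/
lemma finish (q k : ℕ) : ∀ (N : ℕ) (off cl : Finset (Sym2 (Fin n))), (free off).card = N →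
    HasComp (clientGraph cl) k → WaiterForces q k off cl := by
  intro N
  induction N using Nat.strong_induction_on with
  | _ N ih =>
    intro off cl hN hc
    by_cases h : (free off).card ≤ q
    · exact WaiterForces.done off cl h hc
    · push Not at h
      obtain ⟨S, hS, hScard⟩ := Finset.exists_subset_card_eq (show q + 1 ≤ (free off).card from h)
      refine WaiterForces.move off cl S hS hScard ?_
      intro e he
      refine ih (free (off ∪ S)).card ?_ (off ∪ S) (insert e cl) rfl
        (hasComp_mono (Finset.subset_insert _ _) hc)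
      rw [← hN]
      apply Finset.card_lt_card
      rw [Finset.ssubset_iff_of_subset]
      · refine ⟨e, hS he, ?_⟩
        rw [mem_free]
        rintro ⟨_, h2⟩
        exact h2 (Finset.mem_union_right _ he)
      · intro x hx
        rw [mem_free] at hx ⊢
        exact ⟨hx.1, fun h' => hx.2 (Finset.mem_union_left _ h')⟩

lemma le_of_forces {q k : ℕ} {off cl : Finset (Sym2 (Fin n))} (h : WaiterForces q k off cl) :
    k ≤ n := by
  induction h with
  | done off cl h hc =>
    obtain ⟨c, hc⟩ := hc
    refine hc.trans ?_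
    have := Set.ncard_le_ncard (Set.subset_univ c.supp) (Set.toFinite _)
    rwa [Set.ncard_univ, Nat.card_eq_fintype_card, Fintype.card_fin] at this
  | move off cl S hS hcard h ih =>
    have : 0 < S.card := by omega
    obtain ⟨e, he⟩ := Finset.card_pos.1 this
    exact ih e he

lemma le_comp {q k : ℕ} (h : WaiterForces (n := n) q k ∅ ∅) : k ≤ comp n q :=
  le_csSup ⟨n, fun _ hj => le_of_forces hj⟩ h

/-- the first offer: `Q` edges of a Hamilton path -/
def gam (n Q : ℕ) (h : Q < n) : Finset (Sym2 (Fin n)) :=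
  (Finset.univ : Finset (Fin Q)).image
    (fun i => s((⟨i.val, by omega⟩ : Fin n), (⟨i.val + 1, by omega⟩ : Fin n)))

lemma mem_gam {Q : ℕ} (h : Q < n) (u v : Fin n) (huv : s(u, v) ∈ gam n Q h) :
    u.val + 1 = v.val ∨ v.val + 1 = u.val := by
  unfold gam at huv
  rw [mem_image] at huv
  obtain ⟨i, _, hi⟩ := huv
  rw [Sym2.eq_iff] at hi
  rcases hi with ⟨h1, h2⟩ | ⟨h1, h2⟩
  · left
    rw [← h1, ← h2]
  · right
    rw [← h1, ← h2]

lemma card_gam {Q : ℕ} (h : Q < n) : (gam n Q h).card = Q := by
  unfold gam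
  rw [Finset.card_image_of_injective]
  · simp
  · intro i j hij
    simp only [Sym2.eq_iff, Fin.mk.injEq] at hij
    apply Fin.ext
    omega

lemma gam_nbrs {Q : ℕ} (h : Q < n) (w : Fin n) :
    (Finset.univ.filter (fun x => s(w, x) ∈ gam n Q h)).card ≤ 2 := by
  have hsub : Finset.univ.filter (fun x => s(w, x) ∈ gam n Q h) ⊆
      Finset.univ.filter (fun x : Fin n => w.val + 1 = x.val) ∪
      Finset.univ.filter (fun x : Fin n => x.val + 1 = w.val) := by
    intro x hx
    rw [mem_filter] at hx
    rw [mem_union, mem_filter, mem_filter]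
    rcases mem_gam h w x hx.2 with h1 | h1
    · left; exact ⟨mem_univ _, h1⟩
    · right; exact ⟨mem_univ _, h1⟩
  refine (Finset.card_le_card hsub).trans ((Finset.card_union_le _ _).trans ?_)
  have h1 : (Finset.univ.filter (fun x : Fin n => w.val + 1 = x.val)).card ≤ 1 := by
    rw [Finset.card_le_one]
    intro a ha b hb
    rw [mem_filter] at ha hb
    apply Fin.ext
    omega
  have h2 : (Finset.univ.filter (fun x : Fin n => x.val + 1 = w.val)).card ≤ 1 := by
    rw [Finset.card_le_one]
    intro a ha b hb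
    rw [mem_filter] at ha hb
    apply Fin.ext
    omega
  omega

/-- unoffered partners in `C` of a vertex `w` -/
def U (off : Finset (Sym2 (Fin n))) (C : Finset (Fin n)) (w : Fin n) : Finset (Fin n) :=
  C.filter (fun c => s(c, w) ∉ off)

/-- vertices outside `C` with one or two unoffered partners in `C` -/
def Sm (off : Finset (Sym2 (Fin n))) (C : Finset (Fin n)) : Finset (Fin n) :=
  Cᶜ.filter (fun w => 1 ≤ (U off C w).card ∧ (U off C w).card ≤ 2)

/-- the invariant of Waiter's strategy -/
structure Inv (q k : ℕ) (Γ off cl : Finset (Sym2 (Fin n))) (C : Finset (Fin n)) : Prop where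
  card : C.card = k
  conn : ∀ x ∈ C, ∀ y ∈ C, (clientGraph cl).Reachable x y
  gam : Γ ⊆ off
  off_sub : ∀ e ∈ off, e ∈ Γ ∨ ∃ c ∈ C, c ∈ e
  phi : 4 * (n : ℤ) - 14 + 2 * ((k : ℤ) - 2) * ((n : ℤ) - q - 5) - k * (k - 1) ≤
    2 * ((∑ w ∈ Cᶜ, (U off C w).card : ℕ) : ℤ)
  small : (q + 1) / 2 ≤ (Sm off C).card + 3 * k

lemma step_lemma (q k : ℕ) (Γ off cl : Finset (Sym2 (Fin n))) (C : Finset (Fin n))
    (hΓ : ∀ w : Fin n, (Finset.univ.filter (fun x => s(w, x) ∈ Γ)).card ≤ 2)
    (hq : 16 * (n - q - 1) ≤ q + 1) (hk2 : 2 ≤ k) (hkD : k ≤ 2 * (n - q - 1))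
    (hI : Inv q k Γ off cl C) :
    ∃ S ⊆ free off, S.card = q + 1 ∧
      ∀ e ∈ S, ∃ C', Inv q (k + 1) Γ (off ∪ S) (insert e cl) C' := by
  obtain ⟨hcard, hconn, hgam, hoff, hphi, hsmall⟩ := hI
  have hnq : q + 1 ≤ n := by omega
  obtain ⟨D, hD⟩ : ∃ D, n = q + 1 + D := ⟨n - (q + 1), by omega⟩
  have hDD : n - q - 1 = D := by omega
  rw [hDD] at hq hkD
  -- enough unoffered pairs
  have hsum : q + 1 ≤ ∑ w ∈ Cᶜ, (U off C w).card := by
    have h1 : (n : ℤ) = q + 1 + D := by exact_mod_cast hD
    have h2 : (16 : ℤ) * D ≤ q + 1 := by exact_mod_cast hq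
    have h3 : (2 : ℤ) ≤ k := by exact_mod_cast hk2
    have h4 : (k : ℤ) ≤ 2 * D := by exact_mod_cast hkD
    rw [h1] at hphi
    have h5 : (0 : ℤ) ≤ ((k : ℤ) - 2) * (2 * D - k) :=
      mul_nonneg (by linarith) (by linarith)
    have h6 : ((q : ℤ) + 1) ≤ ((∑ w ∈ Cᶜ, (U off C w).card : ℕ) : ℤ) := by
      nlinarith
    exact_mod_cast h6
  have hK : ∀ w ∈ Cᶜ, (U off C w).card ≤ k := by
    intro w _
    rw [← hcard]
    exact Finset.card_le_card (Finset.filter_subset _ _)
  have hSm : k ≤ (Cᶜ.filter (fun w => 1 ≤ (U off C w).card ∧ (U off C w).card ≤ 2)).card := by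
    unfold Sm at hsmall
    omega
  obtain ⟨b, hb1, hb2, hb3, hb4⟩ := choice Cᶜ (fun w => (U off C w).card) (q + 1) k (by omega) hK
    hsum hSm
  have hB : ∀ w, ∃ B ⊆ U off C w, B.card = b w := fun w => Finset.exists_subset_card_eq (hb1 w)
  choose B hB1 hB2 using hB
  have hBC : ∀ w c, c ∈ B w → c ∈ C ∧ s(c, w) ∉ off := by
    intro w c hc
    have := hB1 w hc
    rw [U, mem_filter] at this
    exact this
  set P := (Cᶜ).sigma (fun w => B w) with hP
  set S := P.image (fun p => s(p.2, p.1)) with hS
  have hSmem : ∀ e, e ∈ S ↔ ∃ w, w ∉ C ∧ ∃ c ∈ B w, e = s(c, w) := by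
    intro e
    rw [hS, mem_image]
    constructor
    · rintro ⟨⟨w, c⟩, hp, rfl⟩
      rw [hP, mem_sigma, mem_compl] at hp
      exact ⟨w, hp.1, c, hp.2, rfl⟩
    · rintro ⟨w, hw, c, hc, rfl⟩
      refine ⟨⟨w, c⟩, ?_, rfl⟩
      rw [hP, mem_sigma, mem_compl]
      exact ⟨hw, hc⟩
  -- membership of a pair (inside, outside) in S
  have hScw : ∀ c ∈ C, ∀ x, x ∉ C → (s(c, x) ∈ S ↔ c ∈ B x) := by
    intro c hc x hx
    rw [hSmem]
    constructor
    · rintro ⟨w, hw, c', hc', he⟩
      rw [Sym2.eq_iff] at he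
      rcases he with ⟨rfl, rfl⟩ | ⟨rfl, rfl⟩
      · exact hc'
      · exact absurd hc hw
    · intro h
      exact ⟨x, hx, c, h, rfl⟩
  have hScard : S.card = q + 1 := by
    rw [hS, Finset.card_image_of_injOn]
    · rw [hP, Finset.card_sigma]
      rw [← hb2]
      exact Finset.sum_congr rfl (fun w _ => hB2 w)
    · rintro ⟨w, c⟩ hp ⟨w', c'⟩ hp' he
      have hp1 := hp
      have hp1' := hp'
      rw [Finset.mem_coe, hP, mem_sigma, mem_compl] at hp1 hp1'
      simp only [Sym2.eq_iff] at he
      rcases he with ⟨h1, h2⟩ | ⟨h1, h2⟩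
      · subst h1 h2
        rfl
      · have := (hBC w c hp1.2).1
        rw [h1] at this
        exact absurd this hp1'.1
  have hSfree : S ⊆ free off := by
    intro e he
    obtain ⟨w, hw, c, hc, rfl⟩ := (hSmem e).1 he
    rw [mem_free]
    refine ⟨?_, (hBC w c hc).2⟩
    rw [Sym2.mk_isDiag_iff]
    rintro rfl
    exact hw (hBC _ _ hc).1
  refine ⟨S, hSfree, hScard, ?_⟩
  intro e he
  obtain ⟨w, hw, c, hc, rfl⟩ := (hSmem e).1 he
  obtain ⟨hcC, hcw⟩ := hBC w c hc
  refine ⟨insert w C, ?_⟩
  -- the new partner sets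
  have hU' : ∀ x, x ∉ insert w C →
      (U (off ∪ S) (insert w C) x).card + b x = (U off C x).card + (if s(w, x) ∈ Γ then 0 else 1) := by
    intro x hx
    rw [mem_insert, not_or] at hx
    obtain ⟨hxw, hxC⟩ := hx
    have hwx : s(w, x) ∈ off ∪ S ↔ s(w, x) ∈ Γ := by
      rw [mem_union]
      constructor
      · rintro (h | h)
        · rcases hoff _ h with h' | ⟨c', hc', hc''⟩
          · exact h'
          · rw [Sym2.mem_iff] at hc''
            rcases hc'' with rfl | rfl
            · exact absurd hc' hw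
            · exact absurd hc' hxC
        · obtain ⟨w', hw', c', hc', h'⟩ := (hSmem _).1 h
          rw [Sym2.eq_iff] at h'
          have hc'C := (hBC _ _ hc').1
          rcases h' with ⟨rfl, rfl⟩ | ⟨rfl, rfl⟩
          · exact absurd hc'C hw
          · exact absurd hc'C hxC
      · intro h
        left
        exact hgam h
    have hset : (insert w C).filter (fun c => s(c, x) ∉ off ∪ S) =
        (U off C x \ B x) ∪ (if s(w, x) ∈ Γ then ∅ else {w}) := by
      ext c'
      simp only [mem_filter, mem_insert, mem_union, mem_sdiff, U]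
      constructor
      · rintro ⟨rfl | hc', h⟩
        · right
          rw [← mem_union, hwx] at h
          simp [h]
        · left
          push Not at h
          refine ⟨⟨hc', h.1⟩, ?_⟩
          rw [← hScw c' hc' x hxC]
          exact h.2
      · rintro (⟨⟨hc', h1⟩, h2⟩ | h)
        · refine ⟨Or.inr hc', ?_⟩
          push Not
          refine ⟨h1, ?_⟩
          rw [hScw c' hc' x hxC]
          exact h2
        · by_cases hg : s(w, x) ∈ Γ
          · simp [hg] at h
          · simp only [hg, if_false, mem_singleton] at h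
            subst h
            refine ⟨Or.inl rfl, ?_⟩
            rw [← mem_union, hwx]
            exact hg
    have hdisj : Disjoint (U off C x \ B x) (if s(w, x) ∈ Γ then (∅ : Finset (Fin n)) else {w}) := by
      split_ifs
      · exact Finset.disjoint_empty_right _
      · rw [Finset.disjoint_singleton_right]
        intro h
        rw [mem_sdiff, U, mem_filter] at h
        exact hw h.1.1
    have hcardset : (U (off ∪ S) (insert w C) x).card =
        (U off C x \ B x).card + (if s(w, x) ∈ Γ then 0 else 1) := by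
      unfold U at *
      rw [hset, Finset.card_union_of_disjoint hdisj]
      congr 1
      split_ifs <;> simp
    rw [hcardset, Finset.card_sdiff_of_subset (hB1 x), hB2 x]
    have := hb1 x
    omega
  have hcompl : (insert w C)ᶜ = (Cᶜ).erase w := by
    ext x; simp only [mem_compl, mem_insert, mem_erase, not_or]
  have hwO : w ∈ Cᶜ := by rw [mem_compl]; exact hw
  have hbw : 0 < b w := by
    rw [← hB2 w]
    exact Finset.card_pos.2 ⟨c, hc⟩
  have haw := hb3 w hwO hbw
  refine ⟨?_, ?_, ?_, ?_, ?_, ?_⟩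
  · rw [Finset.card_insert_of_notMem hw, hcard]
  · have hmono : clientGraph cl ≤ clientGraph (insert s(c, w) cl) :=
      clientGraph_mono (Finset.subset_insert _ _)
    have hadj : (clientGraph (insert s(c, w) cl)).Adj c w := by
      unfold clientGraph
      rw [SimpleGraph.fromEdgeSet_adj]
      refine ⟨by simp, ?_⟩
      rintro rfl
      exact hw hcC
    have hreach : ∀ x ∈ insert w C, (clientGraph (insert s(c, w) cl)).Reachable c x := by
      intro x hx
      rw [mem_insert] at hx
      rcases hx with rfl | hx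
      · exact hadj.reachable
      · exact (hconn c hcC x hx).mono hmono
    intro x hx y hy
    exact (hreach x hx).symm.trans (hreach y hy)
  · exact hgam.trans Finset.subset_union_left
  · intro e he
    rw [mem_union] at he
    rcases he with he | he
    · rcases hoff e he with h | ⟨c', hc', hc''⟩
      · left; exact h
      · right; exact ⟨c', Finset.mem_insert_of_mem hc', hc''⟩
    · right
      obtain ⟨w', hw', c', hc', rfl⟩ := (hSmem e).1 he
      exact ⟨c', Finset.mem_insert_of_mem (hBC _ _ hc').1, by simp⟩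
  · -- the potential
    rw [hcompl]
    have h1 : ∑ x ∈ (Cᶜ).erase w, (U (off ∪ S) (insert w C) x).card + ∑ x ∈ (Cᶜ).erase w, b x
        = ∑ x ∈ (Cᶜ).erase w, (U off C x).card
          + ∑ x ∈ (Cᶜ).erase w, (if s(w, x) ∈ Γ then 0 else 1) := by
      rw [← Finset.sum_add_distrib, ← Finset.sum_add_distrib]
      apply Finset.sum_congr rfl
      intro x hx
      apply hU'
      rw [← mem_compl, hcompl]
      exact hx
    have h2 := Finset.add_sum_erase (Cᶜ) b hwO
    have h3 := Finset.add_sum_erase (Cᶜ) (fun x => (U off C x).card) hwO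
    have h4 : n - k - 3 ≤ ∑ x ∈ (Cᶜ).erase w, (if s(w, x) ∈ Γ then 0 else 1) := by
      have h5 : ∑ x ∈ (Cᶜ).erase w, (if s(w, x) ∈ Γ then 0 else 1)
          + ((Cᶜ).erase w |>.filter (fun x => s(w, x) ∈ Γ)).card = ((Cᶜ).erase w).card := by
        rw [Finset.card_filter, ← Finset.sum_add_distrib, Finset.card_eq_sum_ones]
        apply Finset.sum_congr rfl
        intro x _
        split_ifs <;> rfl
      have h6 : ((Cᶜ).erase w |>.filter (fun x => s(w, x) ∈ Γ)).card ≤ 2 :=
        (Finset.card_le_card (Finset.filter_subset_filter _ (Finset.subset_univ _))).trans (hΓ w)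
      rw [Finset.card_erase_of_mem hwO, Finset.card_compl, Fintype.card_fin, hcard] at h5
      omega
    have hkn : k + 1 ≤ n := by
      have := Finset.card_le_univ (insert w C)
      rw [Finset.card_insert_of_notMem hw, hcard, Fintype.card_fin] at this
      exact this
    have h7 : ∑ w ∈ Cᶜ, (U off C w).card + (n - k - 3) ≤
        ∑ x ∈ (Cᶜ).erase w, (U (off ∪ S) (insert w C) x).card + (q + 1) + 1 := by
      omega
    have h8 : ((∑ w ∈ Cᶜ, (U off C w).card : ℕ) : ℤ) + ((n : ℤ) - k - 3) ≤
        ((∑ x ∈ (Cᶜ).erase w, (U (off ∪ S) (insert w C) x).card : ℕ) : ℤ) + (q + 1) + 1 := by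
      have : ((n : ℤ) - k - 3) ≤ ((n - k - 3 : ℕ) : ℤ) := by omega
      have h9 : ((∑ w ∈ Cᶜ, (U off C w).card : ℕ) : ℤ) + ((n - k - 3 : ℕ) : ℤ) ≤
        ((∑ x ∈ (Cᶜ).erase w, (U (off ∪ S) (insert w C) x).card : ℕ) : ℤ) + (q + 1) + 1 := by
        exact_mod_cast h7
      linarith
    push_cast at hphi h8 ⊢
    nlinarith
  · -- many small vertices
    have hsub : ((Cᶜ).filter (fun x => (U off C x).card ≤ b x + 1)) ⊆
        Sm (off ∪ S) (insert w C) ∪ ({w} ∪ Finset.univ.filter (fun x => s(w, x) ∈ Γ)) := by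
      intro x hx
      rw [mem_filter] at hx
      by_cases hxw : x = w
      · rw [mem_union, mem_union]; right; left; simpa using hxw
      by_cases hxΓ : s(w, x) ∈ Γ
      · rw [mem_union, mem_union]; right; right; simpa using hxΓ
      rw [mem_union]
      left
      have hxC : x ∉ insert w C := by
        rw [mem_insert, not_or]
        exact ⟨hxw, mem_compl.1 hx.1⟩
      have h1 := hU' x hxC
      simp only [hxΓ, if_false] at h1
      have h2 := hb1 x
      unfold Sm
      rw [mem_filter, mem_compl]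
      refine ⟨hxC, ?_, ?_⟩ <;> omega
    have h1 := Finset.card_le_card hsub
    have h2 := Finset.card_union_le (Sm (off ∪ S) (insert w C))
      ({w} ∪ Finset.univ.filter (fun x => s(w, x) ∈ Γ))
    have h3 := Finset.card_union_le {w} (Finset.univ.filter (fun x => s(w, x) ∈ Γ))
    have h4 := hΓ w
    rw [Finset.card_singleton] at h3
    unfold Sm at hsmall
    rcases le_total ((q + 1) / 2) ((Cᶜ.filter (fun w => 1 ≤ (U off C w).card ∧
      (U off C w).card ≤ 2)).card + 1) with h5 | h5
    · rw [min_eq_left h5] at hb4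
      omega
    · rw [min_eq_right h5] at hb4
      omega

end Pool.Agent.Work.MP_933b0f_co
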