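import Mathlib
import Pool.Agent.Work.MP_933b0f_co.Strategy

namespace Pool.Agent.Work.MP_933b0f_co

open Finset

variable {n : ℕ}

lemma iterate (q D : ℕ) (Γ : Finset (Sym2 (Fin n)))
    (hΓ : ∀ w : Fin n, (Finset.univ.filter (fun x => s(w, x) ∈ Γ)).card ≤ 2)
    (hD : n - q - 1 = D) (hq : 16 * D ≤ q + 1) :
    ∀ (t k : ℕ) (off cl : Finset (Sym2 (Fin n))) (C : Finset (Fin n)), k + t = 2 * D + 1 → 2 ≤ k →
      Inv q k Γ off cl C → WaiterForces q (2 * D + 1) off cl := by
  intro t
  induction t with
  | zero =>
    intro k off cl C hk hk2 hI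
    have hC : 0 < C.card := by rw [hI.card]; omega
    obtain ⟨x, hx⟩ := Finset.card_pos.1 hC
    refine finish q (2 * D + 1) _ off cl rfl ?_
    apply hasComp_of_set (C := C) (x := x)
    · rw [hI.card]; omega
    · intro y hy
      exact hI.conn x hx y hy
  | succ t ih =>
    intro k off cl C hk hk2 hI
    obtain ⟨S, hS, hScard, hSI⟩ := step_lemma q k Γ off cl C hΓ (by rw [hD]; exact hq) hk2
      (by rw [hD]; omega) hI
    refine WaiterForces.move off cl S hS hScard ?_
    intro e he
    obtain ⟨C', hC'⟩ := hSI e he
    exact ih (k + 1) (off ∪ S) (insert e cl) C' (by omega) (by omega) hC'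

/-- Waiter can force a component of order `2 (n - q - 1) + 1`. -/
theorem main (n q : ℕ) (h1 : 1 ≤ n - q - 1) (h2 : 16 * (n - q - 1) ≤ q + 1) :
    2 * (n - q - 1) + 1 ≤ comp n q := by
  apply le_comp
  have hQn : q + 1 < n := by omega
  set Γ := gam n (q + 1) hQn with hΓdef
  have hΓ : ∀ w : Fin n, (Finset.univ.filter (fun x => s(w, x) ∈ Γ)).card ≤ 2 :=
    fun w => gam_nbrs hQn w
  refine WaiterForces.move ∅ ∅ Γ ?_ (card_gam hQn) ?_
  · intro e he
    induction e with
    | _ u v =>
      rw [mem_free]
      refine ⟨?_, by simp⟩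
      rw [Sym2.mk_isDiag_iff]
      rintro rfl
      have := mem_gam hQn u u he
      omega
  · intro e he
    rw [Finset.empty_union]
    induction e with
    | _ u v =>
      have huv : u ≠ v := by
        rintro rfl
        have := mem_gam hQn u u he
        omega
      refine iterate q (n - q - 1) Γ hΓ rfl h2 (2 * (n - q - 1) - 1) 2 Γ (insert s(u, v) ∅) {u, v}
        (by omega) le_rfl ?_
      have hcard : ({u, v} : Finset (Fin n)).card = 2 := Finset.card_pair huv
      have hU : ∀ x, (U Γ {u, v} x).card + ((if s(u, x) ∈ Γ then 1 else 0)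
          + (if s(v, x) ∈ Γ then 1 else 0)) = 2 := by
        intro x
        unfold U
        rw [Finset.card_filter, Finset.sum_pair huv]
        split_ifs <;> simp_all
      refine ⟨hcard, ?_, Finset.Subset.refl _, fun e he => Or.inl he, ?_, ?_⟩
      · have hadj : (clientGraph (insert s(u, v) ∅)).Adj u v := by
          unfold clientGraph
          rw [SimpleGraph.fromEdgeSet_adj]
          exact ⟨by simp, huv⟩
        intro x hx y hy
        rw [mem_insert, mem_singleton] at hx hy
        rcases hx with rfl | rfl <;> rcases hy with rfl | rfl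
        · exact SimpleGraph.Reachable.refl _
        · exact hadj.reachable
        · exact hadj.symm.reachable
        · exact SimpleGraph.Reachable.refl _
      · have e1 : ∑ x ∈ ({u, v} : Finset (Fin n))ᶜ, (U Γ {u, v} x).card +
            (∑ x ∈ ({u, v} : Finset (Fin n))ᶜ, (if s(u, x) ∈ Γ then 1 else 0)
            + ∑ x ∈ ({u, v} : Finset (Fin n))ᶜ, (if s(v, x) ∈ Γ then 1 else 0)) =
            ({u, v} : Finset (Fin n))ᶜ.card * 2 := by
          rw [← Finset.sum_add_distrib, ← Finset.sum_add_distrib, ← smul_eq_mul,
            ← Finset.sum_const]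
          exact Finset.sum_congr rfl (fun x _ => hU x)
        have e2 : ∀ z : Fin n, ∑ x ∈ ({u, v} : Finset (Fin n))ᶜ, (if s(z, x) ∈ Γ then 1 else 0)
            ≤ 2 := by
          intro z
          rw [← Finset.card_filter]
          exact (Finset.card_le_card (Finset.filter_subset_filter _ (Finset.subset_univ _))).trans
            (hΓ z)
        have e3 := e2 u
        have e4 := e2 v
        rw [Finset.card_compl, Fintype.card_fin, hcard] at e1
        have e5 : 2 * n ≤ ∑ x ∈ ({u, v} : Finset (Fin n))ᶜ, (U Γ {u, v} x).card + 8 := by omega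
        have e6 : 2 * (n : ℤ) ≤ ((∑ x ∈ ({u, v} : Finset (Fin n))ᶜ, (U Γ {u, v} x).card : ℕ) : ℤ)
            + 8 := by exact_mod_cast e5
        push_cast at e6 ⊢
        linarith
      · have hsub : ({u, v} : Finset (Fin n))ᶜ ⊆ Sm Γ {u, v} ∪
            Finset.univ.filter (fun x => s(u, x) ∈ Γ) := by
          intro x hx
          by_cases hux : s(u, x) ∈ Γ
          · rw [mem_union]; right; simpa using hux
          · rw [mem_union]; left
            have := hU x
            simp only [hux, if_false] at this
            unfold Sm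
            rw [mem_filter]
            refine ⟨hx, ?_, ?_⟩
            · split_ifs at this <;> omega
            · omega
        have e1 := Finset.card_le_card hsub
        have e2 := Finset.card_union_le (Sm Γ {u, v}) (Finset.univ.filter (fun x => s(u, x) ∈ Γ))
        have e3 := hΓ u
        rw [Finset.card_compl, Fintype.card_fin, hcard] at e1
        omega

end Pool.Agent.Work.MP_933b0f_co
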